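import Pool.Agent.Helper71.ISL.Defs

/-! Project ISL, module TRK: rescaling and relabelling of a ring kernel (helper33). -/

set_option autoImplicit false

open Set Filter Topology
open scoped ContDiff ComplexConjugate

namespace Pool.Agent.Helper33.ISL

open Pool.Agent.Helper71.UN Pool.Agent.Helper71.ISL

theorem hTRK : Pool.Agent.Helper71.ISL.StTRK := by
  intro Γ Γ' S' m r₁ r₂ R' Λ' z hm hz hΓ hR
  have hzn : 0 < ‖z‖ := norm_pos_iff.mpr hz
  have hdz : ∀ v : ℂ, z * (v / z) = v := fun v => by field_simp
  have hzd : ∀ v : ℂ, (z * v) / z = v := fun v => by field_simp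
  have hdm : ∀ k : ℤ, (m * k) / m = k := fun k => Int.mul_ediv_cancel_left k hm
  have injz : Function.Injective (fun v : ℂ => z * v) := mul_right_injective₀ hz
  have injm : Function.Injective (fun k : ℤ => m * k) := mul_right_injective₀ hm
  refine ⟨S'.image (fun k => m * k),
    fun l x v => if m ∣ l then R' (l / m) (x / z) (v / z) else 0,
    Λ'.image (fun v => z * v), ?_⟩
  refine { smooth := ?_, supp := ?_, labs := ?_, lat := ?_, symm := ?_, idem := ?_, sum := ?_,
           inner := ?_, outer := ?_ }
  · intro l v
    by_cases h : m ∣ l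
    · simp only [if_pos h]
      exact (hR.smooth (l / m) (v / z)).comp (contDiff_id.div_const z)
    · simp only [if_neg h]
      exact contDiff_const
  · intro l x v h
    by_cases hl : m ∣ l
    · simp only [if_pos hl] at h
      exact Finset.mem_image.mpr ⟨v / z, hR.supp _ _ _ h, hdz v⟩
    · simp only [if_neg hl] at h
      exact absurd rfl h
  · intro l hl x v
    by_cases h : m ∣ l
    · obtain ⟨k, rfl⟩ := h
      simp only [dvd_mul_right, if_true, hdm]
      refine hR.labs k ?_ _ _
      intro hk
      exact hl (Finset.mem_image.mpr ⟨k, hk, rfl⟩)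
    · simp only [if_neg h]
  · intro l x v h
    by_cases hl : m ∣ l
    · obtain ⟨k, rfl⟩ := hl
      simp only [dvd_mul_right, if_true, hdm] at h
      have := hΓ k (v / z) (hR.lat _ _ _ h)
      rwa [hdz] at this
    · simp only [if_neg hl] at h
      exact absurd rfl h
  · intro l x v
    by_cases hl : m ∣ l
    · simp only [if_pos hl]
      rw [add_div, neg_div]
      exact hR.symm _ _ _
    · simp only [if_neg hl]
  · intro l x v
    rw [Finset.sum_image (fun a _ b _ h => injz h)]
    by_cases hl : m ∣ l
    · simp only [if_pos hl, add_div, sub_div, hzd]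
      exact hR.idem _ _ _
    · simp only [if_neg hl, mul_zero, Finset.sum_const_zero]
  · intro x v
    rw [Finset.sum_image (fun a _ b _ h => injm h)]
    simp only [dvd_mul_right, if_true, hdm]
    rw [hR.sum (x / z) (v / z)]
    by_cases hv : v = 0
    · subst hv
      simp
    · rw [if_neg hv, if_neg]
      exact div_ne_zero hv hz
  · intro x hx l v
    have hx' : ‖x / z‖ < r₁ := by
      rw [norm_div, div_lt_iff₀ hzn, mul_comm]
      exact hx
    by_cases hl : m ∣ l
    · obtain ⟨k, rfl⟩ := hl
      simp only [dvd_mul_right, if_true, hdm]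
      rw [hR.inner _ hx']
      refine if_congr ?_ rfl rfl
      rw [mul_eq_zero, div_eq_zero_iff]
      constructor
      · rintro ⟨h1, h2⟩
        exact ⟨Or.inr h1, h2.resolve_right hz⟩
      · rintro ⟨h1, h2⟩
        exact ⟨h1.resolve_left hm, Or.inl h2⟩
    · simp only [if_neg hl]
      rw [if_neg]
      rintro ⟨h1, -⟩
      exact hl (h1 ▸ dvd_zero m)
  · intro x hx l v
    have hx' : r₂ < ‖x / z‖ := by
      rw [norm_div, lt_div_iff₀ hzn, mul_comm]
      exact hx
    by_cases hl : m ∣ l
    · obtain ⟨k, rfl⟩ := hl
      simp only [dvd_mul_right, if_true, hdm]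
      rw [hR.outer _ hx']
      refine if_congr ?_ rfl rfl
      rw [div_eq_zero_iff]
      constructor
      · rintro ⟨h1, h2⟩
        exact ⟨by rw [h1, mul_one], h2.resolve_right hz⟩
      · rintro ⟨h1, h2⟩
        refine ⟨?_, Or.inl h2⟩
        have h3 : m * k = m * 1 := by rw [h1, mul_one]
        exact injm h3
    · simp only [if_neg hl]
      rw [if_neg]
      rintro ⟨h1, -⟩
      exact hl (h1 ▸ dvd_refl m)

end Pool.Agent.Helper33.ISL
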